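import Pool.Agent.Q267.E8.Stm

set_option autoImplicit false

namespace Pool.Agent.Q261.E8

open Finset Pool.Agent.Q267.CDE Pool.Agent.Q267.MW Pool.Agent.Q267.E8

/-- `p x = p y` in `ℤ/p²` determines `x` modulo `p`. -/
theorem red_of_p_mul (p : ℕ) [hp : Fact p.Prime] (x y : R p) (h : (p : R p) * x = p * y) :
    red p x = red p y := by
  obtain ⟨n, hn⟩ : ∃ n : ℤ, (n : R p) = x - y := ZMod.intCast_surjective _
  have h1 : (p : R p) * (n : R p) = 0 := by
    rw [hn, mul_sub, h, sub_self]
  have h2 : ((p * n : ℤ) : R p) = 0 := by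
    push_cast
    exact h1
  rw [ZMod.intCast_zmod_eq_zero_iff_dvd] at h2
  obtain ⟨c, hc⟩ := h2
  have hp0 : (p : ℤ) ≠ 0 := by exact_mod_cast hp.out.ne_zero
  have h3 : n = p * c := by
    apply mul_left_cancel₀ hp0
    rw [hc]
    push_cast
    ring
  have h4 : red p (n : R p) = 0 := by
    rw [map_intCast, h3]
    push_cast
    rw [ZMod.natCast_self, zero_mul]
  rw [hn, map_sub, sub_eq_zero] at h4
  exact h4

theorem choose_pred (p : ℕ) [hp : Fact p.Prime] (k : ℕ) (hk : k < p) :
    (((p - 1).choose k : ℕ) : ZMod p) = (-1) ^ k := by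
  induction k with
  | zero => simp
  | succ k ih =>
    have ih := ih (by omega)
    have h1 := Nat.choose_succ_succ (p - 1) k
    rw [show (p - 1).succ = p by have := hp.out.one_le; omega] at h1
    have h2 : ((p.choose (k + 1) : ℕ) : ZMod p) = 0 := by
      rw [ZMod.natCast_eq_zero_iff]
      exact hp.out.dvd_choose_self (by omega) hk
    have h3 := congrArg (Nat.cast : ℕ → ZMod p) h1
    push_cast at h3 h2
    rw [h2, ih] at h3
    rw [pow_succ]
    linear_combination -h3

theorem alt_harm (p : ℕ) [hp : Fact p.Prime] (m : ℕ) (hm : 2 * m < p) :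
    ∑ k ∈ range (2 * m), (-1 : ZMod p) ^ k * ((k : ZMod p) + 1)⁻¹ = H (ZMod p) (2 * m) - H (ZMod p) m := by
  induction m with
  | zero => simp [H_zero]
  | succ m ih =>
    have ih := ih (by omega)
    rw [show 2 * (m + 1) = 2 * m + 1 + 1 by ring, sum_range_succ, sum_range_succ, ih, H_succ, H_succ,
      H_succ]
    have h1 := Pool.Agent.Q267.CDE.cast_ne p (m + 1) (by omega) (by omega)
    have h2 := Pool.Agent.Q267.CDE.cast_ne p (2 * m + 1 + 1) (by omega) (by omega)
    have h3 : (-1 : ZMod p) ^ (2 * m) = 1 := by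
      rw [pow_mul]
      simp
    have h4 : ((m : ZMod p) + 1)⁻¹ = 2 * (((2 * m + 1 : ℕ) : ZMod p) + 1)⁻¹ := by
      push_cast at h1 h2 ⊢
      have h5 : 2 * (m : ZMod p) + 1 + 1 = 2 * ((m : ZMod p) + 1) := by ring
      rw [h5] at h2 ⊢
      have h6 : (2 : ZMod p) ≠ 0 := left_ne_zero_of_mul h2
      rw [mul_inv, ← mul_assoc, mul_inv_cancel₀ h6, one_mul]
    rw [pow_succ, h3, h4]
    ring

theorem hm : S_HM := by
  intro p m hp Q hpm hQ
  have hp2 := hp.out.two_le
  have hodd : Odd p := ⟨m, hpm⟩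
  have hfac : ∀ k ∈ range (p - 1), ((p.choose (k + 1) : ℕ) : R p) =
      p * lift p ((-1) ^ k * ((k : ZMod p) + 1)⁻¹) := by
    intro k hk
    have hk' := mem_range.mp hk
    have h1 := Nat.add_one_mul_choose_eq (p - 1) k
    rw [show p - 1 + 1 = p by omega] at h1
    have h1' := congrArg (Nat.cast : ℕ → R p) h1
    push_cast at h1'
    have hu : IsUnit ((k : R p) + 1) := by
      have := isUnit_nat p (k + 1) (by omega) (by omega)
      push_cast at this
      exact this
    have hv := Pool.Agent.Q267.CDE.cast_ne p (k + 1) (by omega) (by omega)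
    apply hu.mul_right_cancel
    rw [← h1', mul_assoc]
    apply p_mul_eq
    rw [map_mul, red_lift, map_add, map_natCast, map_natCast, map_one, choose_pred p k (by omega)]
    push_cast at hv
    field_simp
  have hsum : ∑ k ∈ range (p - 1), ((p.choose (k + 1) : ℕ) : R p) =
      p * lift p (∑ k ∈ range (p - 1), (-1) ^ k * ((k : ZMod p) + 1)⁻¹) := by
    rw [sum_congr rfl hfac, ← mul_sum]
    apply p_mul_eq
    rw [map_sum, red_lift]
    exact sum_congr rfl fun k _ => red_lift p _
  have hbin : (2 : R p) ^ p = 2 + ∑ k ∈ range (p - 1), ((p.choose (k + 1) : ℕ) : R p) := by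
    have h1 := Nat.sum_range_choose p
    have h2 := congrArg (Nat.cast : ℕ → R p) h1
    push_cast at h2
    rw [← h2, sum_range_succ, show p = (p - 1) + 1 by omega, sum_range_succ']
    rw [show p - 1 + 1 = p by omega]
    simp only [Nat.choose_self, Nat.choose_zero_right, Nat.cast_one]
    ring
  have h1 : (2 : R p) ^ p = 2 * 2 ^ (p - 1) := by
    rw [← pow_succ', show p - 1 + 1 = p by omega]
  rw [h1, hQ, hsum] at hbin
  have h2 : (p : R p) * (2 * lift p Q) = p * lift p (∑ k ∈ range (p - 1), (-1) ^ k * ((k : ZMod p) + 1)⁻¹) := by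
    linear_combination hbin
  have h3 := red_of_p_mul p _ _ h2
  rw [map_mul, red_lift, red_lift, map_ofNat, show p - 1 = 2 * m by omega, alt_harm p m (by omega),
    show 2 * m = p - 1 by omega, H_last p hodd] at h3
  linear_combination h3

end Pool.Agent.Q261.E8
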